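import Mathlib

namespace Pool.Agent.Results.MP_71d783_pr.Chain

open MeasureTheory ProbabilityTheory Set
open scoped symmDiff

/-- `D i u v` says that the edge `uv` has colour `i` and points from `u` to `v` -/
def IsSchreier {V : Type} (G : SimpleGraph V) {d : ℕ} (D : Fin d → V → V → Prop) : Prop :=
  (∀ i u v, D i u v → G.Adj u v) ∧
  (∀ u v, G.Adj u v → ∃! c : Fin d × Bool, if c.2 then D c.1 u v else D c.1 v u) ∧
  (∀ i v, ∃! w, D i v w) ∧ ∀ i v, ∃! w, D i w v

/-- `O u v` says that the edge `uv` points from `u` to `v` -/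
def IsBalanced {V : Type} (G : SimpleGraph V) (d : ℕ) (O : V → V → Prop) : Prop :=
  (∀ u v, O u v → G.Adj u v) ∧ (∀ u v, G.Adj u v → (O u v ↔ ¬O v u)) ∧
  ∀ v, {w | O v w}.ncard = d ∧ {w | O w v}.ncard = d

/-- iid uniform labels -/
noncomputable abbrev P (V : Type) : Measure (V → unitInterval) := Measure.infinitePi fun _ => volume

theorem key {V : Type} [DecidableEq V] {A : Set (V → unitInterval)} (hA : MeasurableSet A) {r : V → V}
    (hr : r.Injective) (h1 : ∀ᵐ ω ∂P V, ω ∘ r ∈ A ↔ ω ∉ A) (h2 : ∀ s : Finset V, ∃ t : V → V,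
      t.Injective ∧ Disjoint s (s.image t) ∧ ∀ᵐ ω ∂P V, ω ∘ t ∈ A ↔ ω ∈ A) : False := by
  have mp : ∀ t : V → V, t.Injective → ∀ B, MeasurableSet B →
      (P V).real ((· ∘ t) ⁻¹' B) = (P V).real B := fun t ht B hB =>
    MeasurePreserving.measureReal_preimage ⟨by fun_prop, Measure.map_infinitePi_infinitePi_of_inj ht⟩
      hB.nullMeasurableSet
  have a : (P V).real A = 1 / 2 := by
    have : (P V).real ((· ∘ r) ⁻¹' A) = (P V).real Aᶜ :=
      measureReal_congr (h1.mono fun ω h => propext h)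
    rw [mp r hr A hA, probReal_compl_eq_one_sub hA] at this
    linarith
  obtain ⟨C, hC, e⟩ := exists_measure_symmDiff_lt_of_generateFrom_isSetRing (μ := P V)
    isSetRing_measurableCylinders ⟨{univ}, by simp, singleton_subset_iff.2 (univ_mem_measurableCylinders _), by simp⟩
    generateFrom_measurableCylinders.symm hA (ε := ENNReal.ofReal (1 / 20)) (by simp)
  have mC := MeasurableSet.of_mem_measurableCylinders hC
  obtain ⟨s, S, hS, rfl⟩ := (mem_measurableCylinders _).1 hC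
  obtain ⟨t, ht, d, h⟩ := h2 s
  have e : (P V).real (cylinder s S ∆ A) ≤ 1 / 20 := ENNReal.toReal_le_of_le_ofReal (by norm_num) e.le
  have i : (P V).real (cylinder s S ∩ (· ∘ t) ⁻¹' cylinder s S) =
      (P V).real (cylinder s S) * (P V).real ((· ∘ t) ⁻¹' cylinder s S) := by
    have := (((iIndepFun_infinitePi (P := fun _ : V => (volume : Measure unitInterval))
      (X := fun _ ω => ω) (by fun_prop)).indepFun_finset s _ d (by fun_prop)).comp measurable_id
        (ψ := fun y (i : s) => y ⟨t i, Finset.mem_image_of_mem t i.2⟩)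
        (by fun_prop)).measure_inter_preimage_eq_mul S S hS hS
    exact (congrArg ENNReal.toReal this).trans ENNReal.toReal_mul
  have b : (P V).real A ≤ _ := (ENNReal.toReal_mono (measure_ne_top _ _) (measure_mono_ae (t :=
    (cylinder s S ∩ (· ∘ t) ⁻¹' cylinder s S ∪ cylinder s S ∆ A) ∪ (· ∘ t) ⁻¹' (cylinder s S ∆ A))
      (h.mono fun ω k hω => by
        have hω : ω ∈ A := hω
        have := k.2 hω
        change ω ∈ (_ ∪ _ : Set _)
        simp only [mem_symmDiff, mem_union, mem_inter_iff, mem_preimage]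
        tauto))).trans ((measureReal_union_le _ _).trans (add_le_add (measureReal_union_le _ _) le_rfl))
  rw [i, mp t ht _ mC, mp t ht _ (mC.symmDiff hA)] at b
  have := abs_le.1 ((abs_measureReal_sub_le_measureReal_symmDiff mC.nullMeasurableSet
    hA.nullMeasurableSet).trans e)
  nlinarith [measureReal_nonneg (μ := P V) (s := cylinder s S)]

abbrev W := ℤ × Fin 4

def m (x : W) : W := (if x.1 % 2 = 0 ↔ x.2 = 0 then x.1 - 1 else x.1 + 1, x.2)

theorem mm (x : W) : m (m x) = x := by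
  refine Prod.ext ?_ rfl
  by_cases h : x.2 = 0 <;> simp only [m, h, iff_true, iff_false] <;> split_ifs <;> omega

theorem m1 (x : W) : (m x).1 ≠ x.1 := by
  simp only [m]
  split_ifs <;> omega

def G : SimpleGraph W where
  Adj x y := (x.1 = y.1 ∧ x.2 ≠ y.2) ∨ y = m x
  symm := ⟨fun x y h => h.imp (fun h => ⟨h.1.symm, h.2.symm⟩) fun h => by rw [h, mm]⟩
  loopless := ⟨fun x h => h.elim (fun h => h.2 rfl) fun h => m1 x (by rw [← h])⟩

def iso (f : ℤ ≃ ℤ) (h : ∀ x : W, m (f x.1, x.2) = (f (m x).1, x.2)) : G ≃g G where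
  toEquiv := f.prodCongr (Equiv.refl _)
  map_rel_iff' := by
    intro x y
    simp [G, Prod.map, h, Prod.ext_iff, show (m x).2 = x.2 from rfl]

def T (k : ℤ) : G ≃g G := iso (Equiv.addRight (2 * k)) fun x => by
  refine Prod.ext ?_ rfl
  by_cases h : x.2 = 0 <;> simp only [m, h, iff_true, iff_false, Equiv.coe_addRight] <;> split_ifs <;> omega

def R : G ≃g G := iso (Equiv.subLeft (-1)) fun x => by
  refine Prod.ext ?_ rfl
  by_cases h : x.2 = 0 <;> simp only [m, h, iff_true, iff_false, Equiv.subLeft_apply] <;> split_ifs <;> omega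

def nb (x : W) (j : Fin 4) : W := if j = x.2 then m x else (x.1, j)

theorem adj (x y : W) : G.Adj x y ↔ ∃ j, nb x j = y := by
  refine ⟨fun h => h.elim (fun h => ⟨y.2, by simp [nb, h.2.symm, h.1]⟩) fun h => ⟨x.2, by simp [nb, h]⟩, ?_⟩
  rintro ⟨j, rfl⟩
  unfold nb
  split_ifs with h
  · exact .inr rfl
  · exact .inl ⟨rfl, Ne.symm h⟩

theorem nb_inj (x : W) : (nb x).Injective := fun i j h => by
  have : ∀ j, (nb x j).2 = j := fun j => by unfold nb; split_ifs with h <;> simp [m, h]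
  rw [← this i, h, this]

theorem flow {O : W → W → Prop} (h : IsBalanced G 2 O) (k : ℕ) :
    O (-1 + 2 * k, 0) (0 + 2 * k, 0) ↔ O (-1, 0) (0, 0) := by
  classical
  have a : ∀ x, ∑ j, (if O x (nb x j) then 1 else 0) = 2 := fun x => by
    rw [← (h.2.2 x).1, show {w | O x w} = nb x '' {j | O x (nb x j)} by
      ext w
      refine ⟨fun k => ?_, by rintro ⟨j, k, rfl⟩; exact k⟩
      obtain ⟨j, rfl⟩ := (adj _ _).1 (h.1 _ _ k)
      exact ⟨j, k, rfl⟩, ncard_image_of_injective _ (nb_inj x), ncard_eq_toFinset_card', toFinset_ofPred,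
      Finset.card_filter]
  have b : ∀ x y, G.Adj x y → (if O x y then 1 else 0) + (if O y x then 1 else 0) = 1 := fun x y k => by
    rw [h.2.1 _ _ k]
    split_ifs <;> simp_all
  have c : ∀ n, ∑ i, (if O (n, i) (m (n, i)) then 1 else 0) = 2 := fun n => by
    have b := fun i j (k : i ≠ j) => b (n, i) (n, j) (.inl ⟨rfl, k⟩)
    have a0 := a (n, 0)
    have a1 := a (n, 1)
    have a2 := a (n, 2)
    have a3 := a (n, 3)
    simp only [Fin.sum_univ_four, nb, Fin.reduceEq, if_true, if_false] at a0 a1 a2 a3 ⊢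
    linarith [b 0 1 (by decide), b 0 2 (by decide), b 0 3 (by decide), b 1 2 (by decide),
      b 1 3 (by decide), b 2 3 (by decide)]
  induction k with
  | zero => simp
  | succ k ih =>
    refine Iff.trans ?_ ih
    have e1 : ∀ i, m (0 + 2 * k, i) = (if i = 0 then -1 + 2 * (k : ℤ) else -1 + 2 * (k + 1 : ℕ), i) :=
      fun i => Prod.ext (by by_cases c : i = 0 <;> simp [m, c] <;> ring) rfl
    have e2 : ∀ i, m (-1 + 2 * (k + 1 : ℕ), i) = (if i = 0 then 0 + 2 * ((k + 1 : ℕ) : ℤ) else 0 + 2 * k, i) :=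
      fun i => Prod.ext (by by_cases c : i = 0 <;> simp [m, c, Int.add_emod] <;> ring) rfl
    have a1 := c (0 + 2 * k)
    have a2 := c (-1 + 2 * (k + 1 : ℕ))
    have b := fun i => b (0 + 2 * k, i) _ (.inr rfl)
    have b0 := b 0
    have b1 := b 1
    have b2 := b 2
    have b3 := b 3
    simp only [Fin.sum_univ_four, e1, e2, Fin.reduceEq, if_true, if_false] at a1 a2 b0 b1 b2 b3
    have : (if O (-1 + 2 * (k + 1 : ℕ), 0) (0 + 2 * (k + 1 : ℕ), 0) then 1 else 0) =
      if O (-1 + 2 * k, 0) (0 + 2 * k, 0) then 1 else 0 := by linarith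
    split_ifs at this <;> simp_all

theorem nobal : ¬∃ F : (W → unitInterval) → W → W → Prop, Measurable F ∧
    (∀ᵐ ω ∂P W, IsBalanced G 2 (F ω)) ∧
    ∀ φ : G ≃g G, ∀ᵐ ω ∂P W, ∀ u v, F (ω ∘ φ.symm) (φ u) (φ v) ↔ F ω u v := by
  rintro ⟨F, hF, h1, h2⟩
  refine key (A := {ω | F ω (-1, 0) (0, 0)}) (measurableSet_setOfPred.2 (by fun_prop)) R.injective ?_ fun s => ?_
  · filter_upwards [h1, h2 R.symm] with ω a b
    exact (b (0, 0) (-1, 0)).trans (a.2.1 _ _ (.inr rfl))
  · obtain ⟨k, hk⟩ := (s.image fun x => x.1.natAbs).exists_le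
    refine ⟨T (k + 1 : ℕ), (T _).injective, Finset.disjoint_left.2 fun x hx n => ?_, ?_⟩
    · obtain ⟨y, hy, rfl⟩ := Finset.mem_image.1 n
      have : (y.1 + 2 * (k + 1 : ℕ)).natAbs ≤ k := hk _ (Finset.mem_image_of_mem _ hx)
      have := hk _ (Finset.mem_image_of_mem _ hy)
      omega
    · filter_upwards [h1, h2 (T (k + 1 : ℕ)).symm] with ω a b
      have := b (T (k + 1 : ℕ) (-1, 0)) (T (k + 1 : ℕ) (0, 0))
      rw [RelIso.symm_apply_apply, RelIso.symm_apply_apply] at this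
      exact this.trans (flow a _)

theorem result : ∃ (d : ℕ) (V : Type) (_ : Countable V) (G : SimpleGraph V),
    1 ≤ d ∧ G.Connected ∧ (∀ v, (G.neighborSet v).ncard = 2 * d) ∧
    (∃ s : Finset V, ∀ v, ∃ u ∈ s, ∃ φ : G ≃g G, φ u = v) ∧
    (∃ F : (V → unitInterval) → V → V → Prop, Measurable F ∧
      (∀ ω, (∀ u v, F ω u v → G.Adj u v ∧ F ω v u) ∧ ∀ v, ∃! w, F ω v w) ∧
      ∀ (φ : G ≃g G) ω u v, F (ω ∘ φ.symm) (φ u) (φ v) ↔ F ω u v) ∧
    (¬∃ F : (V → unitInterval) → Fin d → V → V → Prop, Measurable F ∧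
      (∀ᵐ ω ∂P V, IsSchreier G (F ω)) ∧
      ∀ φ : G ≃g G, ∀ᵐ ω ∂P V, ∀ i u v, F (ω ∘ φ.symm) i (φ u) (φ v) ↔ F ω i u v) ∧
    ¬∃ F : (V → unitInterval) → V → V → Prop, Measurable F ∧ (∀ᵐ ω ∂P V, IsBalanced G d (F ω)) ∧
      ∀ φ : G ≃g G, ∀ᵐ ω ∂P V, ∀ u v, F (ω ∘ φ.symm) (φ u) (φ v) ↔ F ω u v := by
  have tri : ∀ u v, (G.Adj u v ∧ ¬∃ w, G.Adj u w ∧ G.Adj v w) ↔ v = m u := fun u v => by
    refine ⟨fun ⟨h, n⟩ => h.resolve_left fun h => n ?_, ?_⟩
    · obtain ⟨j, a, b⟩ : ∃ j, u.2 ≠ j ∧ v.2 ≠ j := by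
        generalize u.2 = a, v.2 = b
        revert a b
        decide
      exact ⟨(u.1, j), .inl ⟨rfl, a⟩, .inl ⟨h.1.symm, b⟩⟩
    · rintro rfl
      refine ⟨.inr rfl, ?_⟩
      rintro ⟨w, a | rfl, b | b⟩
      · exact m1 u (b.1.trans a.1.symm)
      · exact a.2 (by rw [b, mm])
      · exact b.2 rfl
      · exact m1 _ (by rw [← b])
  refine ⟨2, W, inferInstance, G, by norm_num, ?_, fun v => ?_, ⟨{0, 1} ×ˢ .univ, fun v => ?_⟩,
    ⟨fun _ u v => v = m u, measurable_const, fun _ => ⟨?_, fun v => ⟨_, rfl, fun _ h => h⟩⟩,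
      fun φ _ u v => ?_⟩, ?_, nobal⟩
  · have a : ∀ n i, G.Reachable (n, 0) (n, i) := fun n i => by
      by_cases c : 0 = i
      · rw [c]
      · exact SimpleGraph.Adj.reachable (.inl ⟨rfl, c⟩)
    have b : ∀ n, G.Reachable (n, 0) (n + 1, 0) := fun n => by
      by_cases c : n % 2 = 0
      · exact ((a n 1).trans (SimpleGraph.Adj.reachable (.inr (by simp [m, c])))).trans (a _ 1).symm
      · exact SimpleGraph.Adj.reachable (.inr (by simp [m, c]))
    refine (SimpleGraph.connected_iff_exists_forall_reachable G).2 ⟨(0, 0), fun ⟨n, i⟩ => .trans ?_ (a n i)⟩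
    induction n using Int.induction_on with
    | zero => rfl
    | succ k ih => exact ih.trans (b _)
    | pred k ih => exact ih.trans (by simpa using (b (-k - 1)).symm)
  · rw [show G.neighborSet v = range (nb v) from Set.ext fun w => adj v w,
      ncard_range_of_injective (nb_inj v)]
    simp
  · exact ⟨(v.1 % 2, v.2), by simp; omega, T (v.1 / 2), Prod.ext (Int.emod_add_mul_ediv _ _) rfl⟩
  · rintro u v rfl
    exact ⟨.inr rfl, (mm u).symm⟩
  · beta_reduce
    rw [← tri, ← tri, φ.surjective.exists]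
    simp only [φ.map_rel_iff]
  · rintro ⟨F, hF, h1, h2⟩
    refine nobal ⟨fun ω u v => ∃ i, F ω i u v, by fun_prop, h1.mono fun ω h => ?_,
      fun φ => (h2 φ).mono fun ω h u v => exists_congr fun i => h i u v⟩
    have U : ∀ u v i j, F ω i u v → (F ω j u v → i = j) ∧ ¬F ω j v u := fun u v i j k =>
      ⟨fun l => congrArg Prod.fst ((h.2.1 u v (h.1 _ _ _ k)).unique (y₁ := (i, true)) (y₂ := (j, true)) k l),
        fun l => by simpa using (h.2.1 u v (h.1 _ _ _ k)).unique (y₁ := (i, true)) (y₂ := (j, false)) k l⟩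
    refine ⟨fun u v ⟨i, k⟩ => h.1 i u v k, fun u v a => ⟨fun ⟨i, k⟩ ⟨j, l⟩ => (U u v i j k).2 l, fun n => ?_⟩,
      fun v => ⟨?_, ?_⟩⟩
    · obtain ⟨⟨i, _ | _⟩, k, -⟩ := h.2.1 u v a
      · exact (n ⟨i, k⟩).elim
      · exact ⟨i, k⟩
    · choose f f1 f2 using fun i => h.2.2.1 i v
      rw [show {w | ∃ i, F ω i v w} = range f from Set.ext fun w => ⟨fun ⟨i, k⟩ => ⟨i, (f2 i w k).symm⟩,
        fun ⟨i, k⟩ => ⟨i, k ▸ f1 i⟩⟩, ncard_range_of_injective (f := f) fun i j e =>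
          (U _ _ i j (f1 i)).1 (e ▸ f1 j)]
      simp
    · choose f f1 f2 using fun i => h.2.2.2 i v
      rw [show {w | ∃ i, F ω i w v} = range f from Set.ext fun w => ⟨fun ⟨i, k⟩ => ⟨i, (f2 i w k).symm⟩,
        fun ⟨i, k⟩ => ⟨i, k ▸ f1 i⟩⟩, ncard_range_of_injective (f := f) fun i j e =>
          (U _ _ i j (f1 i)).1 (e ▸ f1 j)]
      simp

end Pool.Agent.Results.MP_71d783_pr.Chain
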